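import Pool.Agent.helper2.Bis.Defs

/-!
# The symmetric Lovász local lemma for independent Bernoulli variables
-/

set_option autoImplicit false

namespace Pool.Agent.helper26.Bis

open Pool.Agent.helper2.Bis Finset

section
open Classical
variable {ι : Type} [Fintype ι] (p : ι → ℝ)

theorem sum_wt : ∑ ω : ι → Bool, wt p ω = 1 := by
  have h := Finset.prod_univ_sum (fun _ : ι => (univ : Finset Bool))
    (fun i b => if b = true then p i else 1 - p i)
  rw [Fintype.piFinset_univ] at h
  unfold wt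
  rw [← h]
  simp

theorem wt_nonneg (hp : ∀ i, 0 ≤ p i ∧ p i ≤ 1) (ω : ι → Bool) : 0 ≤ wt p ω := by
  apply Finset.prod_nonneg
  intro i _
  split_ifs
  · exact (hp i).1
  · linarith [(hp i).2]

theorem Pr_nonneg (hp : ∀ i, 0 ≤ p i ∧ p i ≤ 1) (A : (ι → Bool) → Prop) : 0 ≤ Pr p A := by
  apply Finset.sum_nonneg
  intro ω _
  split_ifs
  · exact wt_nonneg p hp ω
  · exact le_rfl

theorem Pr_true' : Pr p (fun _ => True) = 1 := by
  unfold Pr
  rw [← sum_wt p]
  apply Finset.sum_congr rfl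
  intro ω _
  rw [if_pos trivial]

theorem Pr_mono' (hp : ∀ i, 0 ≤ p i ∧ p i ≤ 1) (A B : (ι → Bool) → Prop)
    (h : ∀ ω, A ω → B ω) : Pr p A ≤ Pr p B := by
  apply Finset.sum_le_sum
  intro ω _
  by_cases h1 : A ω
  · rw [if_pos h1, if_pos (h ω h1)]
  · rw [if_neg h1]
    split_ifs
    · exact wt_nonneg p hp ω
    · exact le_rfl

theorem Pr_congr (A B : (ι → Bool) → Prop) (h : ∀ ω, A ω ↔ B ω) : Pr p A = Pr p B := by
  have : A = B := funext fun ω => propext (h ω)
  rw [this]

/-- the event `A` splits according to `B` -/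
theorem Pr_split (A B : (ι → Bool) → Prop) :
    Pr p A = Pr p (fun ω => A ω ∧ B ω) + Pr p (fun ω => A ω ∧ ¬ B ω) := by
  unfold Pr
  rw [← Finset.sum_add_distrib]
  apply Finset.sum_congr rfl
  intro ω _
  by_cases h1 : A ω <;> by_cases h2 : B ω <;> simp [h1, h2]

/-- union bound -/
theorem Pr_exists_le {E : Type} (hp : ∀ i, 0 ≤ p i ∧ p i ≤ 1) (A : E → (ι → Bool) → Prop)
    (T : Finset E) : Pr p (fun ω => ∃ e ∈ T, A e ω) ≤ ∑ e ∈ T, Pr p (A e) := by
  unfold Pr
  rw [Finset.sum_comm]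
  apply Finset.sum_le_sum
  intro ω _
  have hn : ∀ e ∈ T, 0 ≤ (if A e ω then wt p ω else 0) := by
    intro e _
    split_ifs
    · exact wt_nonneg p hp ω
    · exact le_rfl
  split_ifs with h
  · obtain ⟨e, he, hA⟩ := h
    calc wt p ω = if A e ω then wt p ω else 0 := by rw [if_pos hA]
      _ ≤ _ := Finset.single_le_sum hn he
  · exact Finset.sum_nonneg hn

/-- mix two vectors -/
noncomputable def mix (S : Finset ι) (a b : ι → Bool) : ι → Bool :=
  fun i => if i ∈ S then a i else b i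

theorem wt_mix (S : Finset ι) (a b : ι → Bool) :
    wt p (mix S a b) * wt p (mix S b a) = wt p a * wt p b := by
  unfold wt
  rw [← Finset.prod_mul_distrib, ← Finset.prod_mul_distrib]
  apply Finset.prod_congr rfl
  intro i _
  by_cases hi : i ∈ S
  · simp only [mix, if_pos hi]
  · simp only [mix, if_neg hi]
    ring

/-- the involution `(a, b) ↦ (mix a b, mix b a)` -/
noncomputable def mixE (S : Finset ι) : ((ι → Bool) × (ι → Bool)) ≃ ((ι → Bool) × (ι → Bool)) where
  toFun q := (mix S q.1 q.2, mix S q.2 q.1)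
  invFun q := (mix S q.1 q.2, mix S q.2 q.1)
  left_inv q := by
    apply Prod.ext
    · funext i
      by_cases hi : i ∈ S <;> simp [mix, hi]
    · funext i
      by_cases hi : i ∈ S <;> simp [mix, hi]
  right_inv q := by
    apply Prod.ext
    · funext i
      by_cases hi : i ∈ S <;> simp [mix, hi]
    · funext i
      by_cases hi : i ∈ S <;> simp [mix, hi]

/-- independence -/
theorem Pr_indep (S : Finset ι) (A B : (ι → Bool) → Prop)
    (hA : ∀ ω ω' : ι → Bool, (∀ i ∈ S, ω i = ω' i) → (A ω ↔ A ω'))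
    (hB : ∀ ω ω' : ι → Bool, (∀ i, i ∉ S → ω i = ω' i) → (B ω ↔ B ω')) :
    Pr p (fun ω => A ω ∧ B ω) = Pr p A * Pr p B := by
  have e1 : Pr p A * Pr p B = ∑ q : (ι → Bool) × (ι → Bool),
      (if A q.1 ∧ B q.2 then wt p q.1 * wt p q.2 else 0) := by
    unfold Pr
    rw [Finset.sum_mul_sum, Fintype.sum_prod_type]
    refine Finset.sum_congr rfl fun a _ => Finset.sum_congr rfl fun b _ => ?_
    by_cases h1 : A a <;> by_cases h2 : B b <;> simp [h1, h2]
  have e2 : Pr p (fun ω => A ω ∧ B ω) = ∑ q : (ι → Bool) × (ι → Bool),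
      (if A q.1 ∧ B q.1 then wt p q.1 * wt p q.2 else 0) := by
    rw [Fintype.sum_prod_type]
    unfold Pr
    refine Finset.sum_congr rfl fun a _ => ?_
    by_cases h : A a ∧ B a
    · simp only [h, and_self, if_true]
      rw [← Finset.mul_sum, sum_wt, mul_one]
    · simp only [h, if_false, Finset.sum_const_zero]
  rw [e1, e2]
  symm
  refine Fintype.sum_equiv (mixE S) _ _ fun q => ?_
  have h1 : A (mixE S q).1 ↔ A q.1 := hA _ _ (fun i hi => by simp [mixE, mix, hi])
  have h2 : B (mixE S q).1 ↔ B q.2 := hB _ _ (fun i hi => by simp [mixE, mix, hi])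
  rw [h1, h2]
  have h3 : wt p (mixE S q).1 * wt p (mixE S q).2 = wt p q.1 * wt p q.2 := wt_mix p S q.1 q.2
  rw [h3]

variable {E : Type} (Bad : E → (ι → Bool) → Prop) (vb : E → Finset ι)

/-- no bad event of `T` occurs -/
def Good (T : Finset E) (ω : ι → Bool) : Prop := ∀ e ∈ T, ¬ Bad e ω

theorem key (hp : ∀ i, 0 ≤ p i ∧ p i ≤ 1)
    (hdep : ∀ e (ω ω' : ι → Bool), (∀ i ∈ vb e, ω i = ω' i) → (Bad e ω ↔ Bad e ω'))
    (P0 : ℝ) (hP0 : 0 ≤ P0) (hP : ∀ e, Pr p (Bad e) ≤ P0) (d : ℕ)
    (hd : ∀ e (T : Finset E), (T.filter (fun e' => ¬ Disjoint (vb e) (vb e'))).card ≤ d)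
    (h4 : 4 * P0 * (d + 1) ≤ 1) :
    ∀ (n : ℕ) (T : Finset E), T.card ≤ n → ∀ e,
      Pr p (fun ω => Bad e ω ∧ Good Bad T ω) ≤ 2 * P0 * Pr p (Good Bad T) := by
  intro n
  induction n with
  | zero =>
    intro T hT e
    have hT0 : T = ∅ := Finset.card_eq_zero.mp (Nat.le_zero.mp hT)
    subst hT0
    have h1 : Pr p (Good Bad ∅) = 1 := by
      rw [← Pr_true' p]
      apply Pr_congr
      intro ω
      simp [Good]
    have h2 : Pr p (fun ω => Bad e ω ∧ Good Bad ∅ ω) ≤ Pr p (Bad e) :=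
      Pr_mono' p hp _ _ (fun ω h => h.1)
    rw [h1]
    linarith [hP e]
  | succ n ih =>
    intro T hT e
    set T1 := T.filter (fun e' => ¬ Disjoint (vb e) (vb e')) with hT1
    set T2 := T.filter (fun e' => Disjoint (vb e) (vb e')) with hT2
    have hTu : ∀ ω, Good Bad T ω ↔ Good Bad T2 ω ∧ Good Bad T1 ω := by
      intro ω
      constructor
      · intro h
        exact ⟨fun e' he' => h e' (Finset.mem_filter.mp he').1,
          fun e' he' => h e' (Finset.mem_filter.mp he').1⟩
      · rintro ⟨h1, h2⟩ e' he'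
        by_cases hc : Disjoint (vb e) (vb e')
        · exact h1 e' (Finset.mem_filter.mpr ⟨he', hc⟩)
        · exact h2 e' (Finset.mem_filter.mpr ⟨he', hc⟩)
    -- independence
    have hind : Pr p (fun ω => Bad e ω ∧ Good Bad T2 ω) = Pr p (Bad e) * Pr p (Good Bad T2) := by
      apply Pr_indep p (vb e) (Bad e) (Good Bad T2) (hdep e)
      intro ω ω' h
      have : ∀ e' ∈ T2, (Bad e' ω ↔ Bad e' ω') := by
        intro e' he'
        apply hdep e' ω ω'
        intro i hi
        apply h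
        intro hi'
        exact (Finset.disjoint_left.mp (Finset.mem_filter.mp he').2) hi' hi
      constructor
      · intro hg e' he'
        rw [← this e' he']
        exact hg e' he'
      · intro hg e' he'
        rw [this e' he']
        exact hg e' he'
    have hup : Pr p (fun ω => Bad e ω ∧ Good Bad T ω) ≤ P0 * Pr p (Good Bad T2) := by
      calc Pr p (fun ω => Bad e ω ∧ Good Bad T ω)
          ≤ Pr p (fun ω => Bad e ω ∧ Good Bad T2 ω) :=
            Pr_mono' p hp _ _ (fun ω h => ⟨h.1, ((hTu ω).mp h.2).1⟩)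
        _ = Pr p (Bad e) * Pr p (Good Bad T2) := hind
        _ ≤ P0 * Pr p (Good Bad T2) :=
            mul_le_mul_of_nonneg_right (hP e) (Pr_nonneg p hp _)
    have hlow : Pr p (Good Bad T2) ≤ 2 * Pr p (Good Bad T) := by
      by_cases hemp : T1 = ∅
      · have : Pr p (Good Bad T) = Pr p (Good Bad T2) := by
          apply Pr_congr
          intro ω
          rw [hTu ω, hemp]
          simp [Good]
        rw [this]
        linarith [Pr_nonneg p hp (Good Bad T2)]
      · have hcard : T2.card ≤ n := by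
          have h1 : T1.card + T2.card = T.card := by
            rw [hT1, hT2, add_comm]
            exact Finset.card_filter_add_card_filter_not _
          have h2 : 0 < T1.card := Finset.card_pos.mpr (Finset.nonempty_iff_ne_empty.mpr hemp)
          omega
        have hs := Pr_split p (Good Bad T2) (fun ω => ∃ e' ∈ T1, Bad e' ω)
        have h1 : Pr p (fun ω => Good Bad T2 ω ∧ ∃ e' ∈ T1, Bad e' ω) ≤
            ∑ e' ∈ T1, Pr p (fun ω => Bad e' ω ∧ Good Bad T2 ω) := by
          refine le_trans (le_of_eq ?_)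
            (Pr_exists_le p hp (fun e' ω => Bad e' ω ∧ Good Bad T2 ω) T1)
          apply Pr_congr
          intro ω
          constructor
          · rintro ⟨h, e', he', hb⟩
            exact ⟨e', he', hb, h⟩
          · rintro ⟨e', he', hb, h⟩
            exact ⟨h, e', he', hb⟩
        have h2 : ∑ e' ∈ T1, Pr p (fun ω => Bad e' ω ∧ Good Bad T2 ω) ≤
            T1.card * (2 * P0 * Pr p (Good Bad T2)) := by
          rw [← nsmul_eq_mul]
          exact Finset.sum_le_card_nsmul _ _ _ (fun e' _ => ih T2 hcard e')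
        have h3 : Pr p (fun ω => Good Bad T2 ω ∧ ¬ ∃ e' ∈ T1, Bad e' ω) = Pr p (Good Bad T) := by
          apply Pr_congr
          intro ω
          rw [hTu ω]
          constructor
          · rintro ⟨h, h'⟩
            exact ⟨h, fun e' he' hb => h' ⟨e', he', hb⟩⟩
          · rintro ⟨h, h'⟩
            exact ⟨h, fun ⟨e', he', hb⟩ => h' e' he' hb⟩
        have h4' : (T1.card : ℝ) ≤ d := by exact_mod_cast hd e T
        have hg := Pr_nonneg p hp (Good Bad T2)
        have h5 : (T1.card : ℝ) * (2 * P0 * Pr p (Good Bad T2)) ≤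
            d * (2 * P0 * Pr p (Good Bad T2)) :=
          mul_le_mul_of_nonneg_right h4' (by positivity)
        have h6 : (d : ℝ) * (2 * P0) ≤ 1 / 2 := by nlinarith
        have h7 : (d : ℝ) * (2 * P0 * Pr p (Good Bad T2)) ≤ 1 / 2 * Pr p (Good Bad T2) := by
          rw [← mul_assoc]
          exact mul_le_mul_of_nonneg_right h6 hg
        linarith
    calc Pr p (fun ω => Bad e ω ∧ Good Bad T ω) ≤ P0 * Pr p (Good Bad T2) := hup
      _ ≤ P0 * (2 * Pr p (Good Bad T)) := mul_le_mul_of_nonneg_left hlow hP0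
      _ = 2 * P0 * Pr p (Good Bad T) := by ring

theorem card_le_of_ncard [Finite E] (d : ℕ)
    (hd : ∀ e, Set.ncard {e' : E | ¬ Disjoint (vb e) (vb e')} ≤ d) :
    ∀ e (T : Finset E), (T.filter (fun e' => ¬ Disjoint (vb e) (vb e'))).card ≤ d := by
  intro e T
  refine le_trans ?_ (hd e)
  rw [← Set.ncard_coe_finset]
  refine Set.ncard_le_ncard ?_ (Set.toFinite _)
  intro e' he'
  exact (Finset.mem_filter.mp he').2

theorem pos (hp : ∀ i, 0 ≤ p i ∧ p i ≤ 1)
    (hdep : ∀ e (ω ω' : ι → Bool), (∀ i ∈ vb e, ω i = ω' i) → (Bad e ω ↔ Bad e ω'))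
    (P0 : ℝ) (hP0 : 0 ≤ P0) (hP : ∀ e, Pr p (Bad e) ≤ P0) (d : ℕ)
    (hd : ∀ e (T : Finset E), (T.filter (fun e' => ¬ Disjoint (vb e) (vb e'))).card ≤ d)
    (h4 : 4 * P0 * (d + 1) ≤ 1) (T : Finset E) : 0 < Pr p (Good Bad T) := by
  induction T using Finset.induction_on with
  | empty =>
    have h1 : Pr p (Good Bad ∅) = 1 := by
      rw [← Pr_true' p]
      apply Pr_congr
      intro ω
      simp [Good]
    rw [h1]
    exact one_pos
  | insert e T he ih =>
    have hs := Pr_split p (Good Bad T) (Bad e)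
    have h1 : Pr p (fun ω => Good Bad T ω ∧ Bad e ω) ≤ 2 * P0 * Pr p (Good Bad T) := by
      refine le_trans (le_of_eq ?_) (key p Bad vb hp hdep P0 hP0 hP d hd h4 T.card T le_rfl e)
      exact Pr_congr p _ _ (fun ω => and_comm)
    have h2 : Pr p (fun ω => Good Bad T ω ∧ ¬ Bad e ω) = Pr p (Good Bad (insert e T)) := by
      apply Pr_congr
      intro ω
      constructor
      · rintro ⟨h, h'⟩ e' he'
        rcases Finset.mem_insert.mp he' with rfl | h''
        · exact h'
        · exact h e' h''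
      · intro h
        exact ⟨fun e' he' => h e' (Finset.mem_insert_of_mem he'), h e (Finset.mem_insert_self _ _)⟩
    have h3 : 4 * P0 ≤ 1 := by
      have : (0 : ℝ) ≤ d := Nat.cast_nonneg d
      nlinarith
    nlinarith

end

end Pool.Agent.helper26.Bis

namespace Pool.Agent.helper2.Bis

open Finset

/-- (module B3) symmetric Lovász local lemma for the Bernoulli product measure. -/
theorem lll {ι E : Type} [Fintype ι] [Fintype E] [DecidableEq ι] (p : ι → ℝ)
    (hp : ∀ i, 0 ≤ p i ∧ p i ≤ 1) (Bad : E → (ι → Bool) → Prop) (vb : E → Finset ι)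
    (hdep : ∀ e ω ω', (∀ i ∈ vb e, ω i = ω' i) → (Bad e ω ↔ Bad e ω'))
    (P0 : ℝ) (hP : ∀ e, Pr p (Bad e) ≤ P0) (d : ℕ)
    (hd : ∀ e, Set.ncard {e' : E | ¬ Disjoint (vb e) (vb e')} ≤ d)
    (h4 : 4 * P0 * (d + 1) ≤ 1) : ∃ ω, ∀ e, ¬ Bad e ω := by
  classical
  rcases isEmpty_or_nonempty E with hE | ⟨⟨e0⟩⟩
  · exact ⟨fun _ => true, fun e => hE.elim e⟩
  have hP0 : 0 ≤ P0 := le_trans (Pool.Agent.helper26.Bis.Pr_nonneg p hp (Bad e0)) (hP e0)
  have hpos := Pool.Agent.helper26.Bis.pos p Bad vb hp hdep P0 hP0 hP d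
    (Pool.Agent.helper26.Bis.card_le_of_ncard vb d hd) h4 (Finset.univ : Finset E)
  by_contra hcon
  push Not at hcon
  have : Pr p (Pool.Agent.helper26.Bis.Good Bad (Finset.univ : Finset E)) = 0 := by
    unfold Pr
    apply Finset.sum_eq_zero
    intro ω _
    rw [if_neg]
    intro hg
    obtain ⟨e, he⟩ := hcon ω
    exact hg e (Finset.mem_univ e) he
  linarith

end Pool.Agent.helper2.Bis
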